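import Mathlib

/-!
# Project MK (helper755): a Markov process with separated steps and independence at lag two
(problem 65c995, S19375)

Definitions and the exact statements of the parts.
-/

set_option autoImplicit false
set_option linter.unusedVariables false

open MeasureTheory ProbabilityTheory

open scoped Classical

namespace Pool.Agent.Y755.MK

noncomputable section

/-- binary sequences -/
abbrev Y : Type := ℕ → Bool

/-- coin tossing -/
def mY : Measure Y := Measure.infinitePi fun _ : ℕ => (PMF.uniformOfFintype Bool).toMeasure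

instance : IsProbabilityMeasure mY := by
  unfold mY
  infer_instance

/-- a sign -/
def sgn (b : Bool) : ℝ := if b then -1 else 1

/-- four conditions on a block of two digits -/
def bl (l : Fin 4) (s t : Bool) : Bool :=
  if l = 0 then t else if l = 1 then !t else if l = 2 then xor s t else !(xor s t)

def uu (l : Fin 4) (s t : Bool) : ℝ := if bl l s t then 0 else sgn s
def vv (l : Fin 4) (s t : Bool) : ℝ := if bl l s t then sgn s else 0

/-- the kernel: only the first block in which `y` and `z` differ contributes -/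
def ae (l : Fin 4) (y z : Y) : ℝ := ∑' k : ℕ, if ∀ i < 2 * k, y i = z i then
  uu l (y (2 * k)) (y (2 * k + 1)) * vv l (z (2 * k)) (z (2 * k + 1)) else 0

/-- a zero in front of the sequence -/
def cons0 (y : Y) : Y := fun n => if n = 0 then false else y (n - 1)

/-- the eight kernels -/
def aa (i : Fin 8) (y z : Y) : ℝ :=
  if i.1 < 4 then ae (Fin.ofNat 4 i.1) y z else ae (Fin.ofNat 4 i.1) (cons0 y) (cons0 z)

/-- AB: bounds and measurability. -/
def S_AB : Prop := ∀ i : Fin 8, (∀ y z : Y, -1 ≤ aa i y z ∧ aa i y z ≤ 1) ∧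
  Measurable fun q : Y × Y => aa i q.1 q.2

/-- AS: the sum of the kernels is one. -/
def S_AS : Prop := ∀ y z : Y, y ≠ z → ∑ i : Fin 8, aa i y z = 1

/-- AN: the squares of the operators are zero. -/
def S_AN : Prop := ∀ (i : Fin 8) (y w : Y), ∫ z, aa i y z * aa i z w ∂mY = 0

/-- NA: no atoms. -/
def S_NA : Prop := ∀ y : Y, mY {y} = 0

/-- the 49 colours: the affine plane over the field with 7 elements -/
abbrev C : Type := Fin 7 × Fin 7

/-- the eight parallel classes of lines -/
def Lf (i : Fin 8) (c : C) : Fin 7 := if i.1 = 7 then c.2 else c.1 + Fin.ofNat 7 i.1 * c.2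

/-- CC: the affine plane. -/
def S_CC : Prop := (∀ c d : C, c ≠ d → ∃! i : Fin 8, Lf i c = Lf i d) ∧
  (∀ (i : Fin 8) (a : Fin 7), (Finset.univ.filter fun c : C => Lf i c = a).card = 7) ∧
  ∀ i j : Fin 8, i ≠ j → ∀ a b : Fin 7,
    (Finset.univ.filter fun c : C => Lf i c = a ∧ Lf j c = b).card = 1

/-- the transition density between colours -/
def pp (c d : C) (y z : Y) : ℝ :=
  if c = d then 0 else 7 / 6 * ∑ i : Fin 8, if Lf i c = Lf i d then 1 - aa i y z else 0

/-- PP: the properties of the density. -/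
def S_PP : Prop := (∀ (c : C) (y : Y), ∑ d : C, ∫ z, pp c d y z ∂mY = 49) ∧
  (∀ (d : C) (z : Y), ∑ c : C, ∫ y, pp c d y z ∂mY = 49) ∧
  ∀ (c e : C) (y w : Y), ∑ d : C, ∫ z, pp c d y z * pp d e z w ∂mY = 49

/-- the state space -/
abbrev S0 : Type := C × Y

/-- the stationary law -/
def mS : Measure S0 := (PMF.uniformOfFintype C).toMeasure.prod mY

/-- the transition density -/
def ps (x x' : S0) : ℝ := pp x.1 x'.1 x.2 x'.2

/-- PS: the properties of the density on the state space. -/
def S_PS : Prop := IsProbabilityMeasure mS ∧ (Measurable fun q : S0 × S0 => ps q.1 q.2) ∧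
  (∀ x x' : S0, 0 ≤ ps x x' ∧ ps x x' ≤ 3) ∧ (∀ x : S0, ∫ x', ps x x' ∂mS = 1) ∧
  (∀ x' : S0, ∫ x, ps x x' ∂mS = 1) ∧ (∀ x x'' : S0, ∫ x', ps x x' * ps x' x'' ∂mS = 1) ∧
  ∀ x x' : S0, x.1 = x'.1 → ps x x' = 0

/-- probability of the next steps lying in the given sets -/
def Gl : List (Set S0) → S0 → ℝ
  | [] => fun _ => 1
  | A :: l => fun x => ∫ x' in A, ps x x' * Gl l x' ∂mS

/-- the law of the process -/
def Law (μ : Measure (ℤ → S0)) : Prop := IsProbabilityMeasure μ ∧
  ∀ (s : ℤ) (A : Set S0) (l : List (Set S0)), MeasurableSet A → (∀ B ∈ l, MeasurableSet B) →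
    μ.real {ω | ω s ∈ A ∧ ∀ i : Fin l.length, ω (s + 1 + (i : ℕ)) ∈ l.get i} =
      ∫ x in A, Gl l x ∂mS

/-- CH: existence of the process. -/
def S_CH : Prop := S_PS → ∃ μ : Measure (ℤ → S0), Law μ

/-- STN: stationarity. -/
def S_STN : Prop := ∀ μ : Measure (ℤ → S0), Law μ → ∀ n : ℤ,
  μ.map (fun ω (i : ℤ) => ω (i + n)) = μ.map (fun ω (i : ℤ) => ω i)

/-- MKV: the Markov property. -/
def S_MKV : Prop := S_PS → ∀ μ : Measure (ℤ → S0), Law μ → ∀ (n : ℤ) (A : Set S0),
  MeasurableSet A →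
    MeasureTheory.condExp (⨆ (m : ℤ) (_ : m ≤ n),
        MeasurableSpace.comap (fun ω : ℤ → S0 => ω m) inferInstance) μ
      (Set.indicator ((fun ω : ℤ → S0 => ω (n + 1)) ⁻¹' A) (fun _ => (1 : ℝ)))
    =ᵐ[μ] MeasureTheory.condExp (MeasurableSpace.comap (fun ω : ℤ → S0 => ω n) inferInstance) μ
      (Set.indicator ((fun ω : ℤ → S0 => ω (n + 1)) ⁻¹' A) (fun _ => (1 : ℝ)))

/-- IN2: independence at lag two. -/
def S_IN2 : Prop := S_PS → ∀ μ : Measure (ℤ → S0), Law μ →
  IndepFun (fun ω : ℤ → S0 => ω 0) (fun ω : ℤ → S0 => ω 2) μ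

/-- NEQ: the colours of consecutive states are different. -/
def S_NEQ : Prop := S_PS → ∀ μ : Measure (ℤ → S0), Law μ →
  ∀ᵐ ω ∂μ, (ω 0).1 ≠ (ω 1).1

end

end Pool.Agent.Y755.MK
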